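import Pool.Agent.Work.MP_fb1088_co.Windows

/-!
# Full-size modular sonar sequences are independent of quasi-periodic sequences

Let `f` be an `m × n` modular sonar sequence, `d` a divisor of `m` and `g` a sequence in `ℤ/d` with
`g (x + N) = g x + c`.  Then `f` modulo `d` and `g` are asymptotically independent if `N` is small with
respect to `n` and `n` is close to `m + 1`.  So for composite `m` no full-size sequence can be composed
of (or be close, modulo a proper divisor `d` of `m` with `d = o(m)`, to) one of the known full-size
sequences modulo `d` or a polynomial sequence.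
-/

set_option autoImplicit false

namespace Pool.Agent.Results.MP_fb1088_co.NoProducts

open Finset Pool.Agent.Sonar

theorem result {m n d N : ℕ} [NeZero m] [NeZero d] (hd : d ∣ m) (hN : 1 ≤ N)
    {f : ℕ → ZMod m} (hf : IsModularSonar m n f) {g : ℕ → ZMod d} {c : ZMod d}
    (hg : ∀ x, g (x + N) = g x + c) :
    ∑ a : ZMod d, ((#{i ∈ Icc 1 n | ZMod.castHom hd (ZMod d) (f i) = g i + a} : ℝ) - n / d) ^ 2 ≤
      2 * n * √((m + 1) * N / d) + n * N + n * (m + 1 - n) / d := by
  refine le_trans (le_of_eq ?_) (variance hd hN hf hg)
  refine Finset.sum_congr rfl fun a _ => ?_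
  have h : #{i ∈ Icc 1 n | ZMod.castHom hd (ZMod d) (f i) = g i + a} =
      cls n (fun i => ZMod.castHom hd (ZMod d) (f i) - g i) a := by
    unfold cls
    refine Finset.card_bij' (fun i _ => i - 1) (fun i _ => i + 1) ?_ ?_ ?_ ?_
    · intro i hi
      rw [Finset.mem_filter, Finset.mem_Icc] at hi
      rw [Finset.mem_filter, Finset.mem_range]
      refine ⟨by omega, ?_⟩
      change ZMod.castHom hd (ZMod d) (f (i - 1 + 1)) - g (i - 1 + 1) = a
      rw [Nat.sub_add_cancel hi.1.1, hi.2]
      ring
    · intro i hi
      rw [Finset.mem_filter, Finset.mem_range] at hi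
      rw [Finset.mem_filter, Finset.mem_Icc]
      refine ⟨by omega, ?_⟩
      have h2 : ZMod.castHom hd (ZMod d) (f (i + 1)) - g (i + 1) = a := hi.2
      rw [← h2]
      ring
    · intro i hi
      rw [Finset.mem_filter, Finset.mem_Icc] at hi
      exact Nat.sub_add_cancel hi.1.1
    · intro i _
      exact Nat.add_sub_cancel i 1
  rw [h]

end Pool.Agent.Results.MP_fb1088_co.NoProducts
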